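import Pool.Agent.Lib.helper21.Queue

namespace Pool.Agent.H.MP_5b5905_lc

open List Pool.Agent.Lib.helper21.Queue Relation

section
variable {P A : Type} (δ : P → A → P) (ℓ : P → A → A)

/-- The state `q · u`. -/
def run (q : P) (u : List A) : P := u.foldl δ q

/-- The map computed from state `q`. -/
def out : P → List A → List A
  | _, [] => []
  | q, a :: u => ℓ q a :: out (δ q a) u

/-- Reset words: `Q · u` is a singleton. -/
def Syn : Set (List A) := {u | ∃ p, Set.range (fun q => run δ q u) = {p}}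

def WeaklyReset : Prop := (Syn δ).Nonempty ∧ ∃ H : Set (List A), H.Nonempty ∧ H ⊆ Syn δ ∧
  (∀ x u y, u ∈ H → x ++ u ++ y ∈ H) ∧ ∀ q, ∀ u ∈ H, out δ ℓ q u ∈ H

theorem out_append (q : P) (u v : List A) :
    out δ ℓ q (u ++ v) = out δ ℓ q u ++ out δ ℓ (run δ q u) v := by
  induction u generalizing q with
  | nil => rfl
  | cons a u ih => simp [out, ih, run]

theorem run_append (q : P) (u v : List A) : run δ q (u ++ v) = run δ (run δ q u) v := foldl_append

variable {δ ℓ}

theorem WeaklyReset.map {P' A' : Type} {δ' : P' → A' → P'} {ℓ' : P' → A' → A'} (e : P ≃ P')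
    (f : A ≃ A') (h1 : ∀ q a, δ' (e q) (f a) = e (δ q a)) (h2 : ∀ q a, ℓ' (e q) (f a) = f (ℓ q a))
    (h : WeaklyReset δ ℓ) : WeaklyReset δ' ℓ' := by
  have r : ∀ u q, run δ' (e q) (u.map f) = e (run δ q u) ∧
      out δ' ℓ' (e q) (u.map f) = (out δ ℓ q u).map f := fun u => by
    induction u with
    | nil => exact fun _ => ⟨rfl, rfl⟩
    | cons a u ih => exact fun q => by simpa [run, out, h1, h2] using ih (δ q a)
  obtain ⟨-, H, ⟨u, hu⟩, h3, h4, h5⟩ := h
  have s : ∀ u ∈ H, u.map f ∈ Syn δ' := fun u hu => by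
    obtain ⟨p, hp⟩ := h3 hu
    refine ⟨e p, ?_⟩
    rw [← e.surjective.range_comp, ← Set.image_singleton, ← hp, ← Set.range_comp]
    exact congrArg _ (funext fun q => (r u q).1)
  refine ⟨⟨_, s u hu⟩, List.map f '' H, ⟨_, u, hu, rfl⟩, ?_, ?_, ?_⟩
  · rintro _ ⟨u, hu, rfl⟩
    exact s u hu
  · rintro x _ y ⟨u, hu, rfl⟩
    exact ⟨_, h4 (x.map f.symm) u (y.map f.symm) hu, by simp⟩
  · rintro q _ ⟨u, hu, rfl⟩
    obtain ⟨q, rfl⟩ := e.surjective q
    exact ⟨_, h5 q u hu, (r u q).2.symm⟩

end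

inductive Lt (Q S : Type) : Type
  | c | d | b
  | hd (o : Option Q)
  | sy (x : S)

inductive S1 (Q S : Type) (B : ℕ) : Type
  | z | s
  | rd (q : Q)
  | cw (l : {l : List S // l.length ≤ B})

open Lt S1

variable {Q S : Type} {B : ℕ} (δ : Q → S → Option Q × List S) (hB : ∀ q x, (δ q x).2.length ≤ B)
  (q0 : Q) (a e : S) (n : ℕ)

def d1 : S1 Q S B → Lt Q S → S1 Q S B
  | z, _ => z
  | _, d => z
  | _, c => s
  | s, hd none => cw ⟨[], Nat.zero_le _⟩
  | s, hd (some q) => rd q
  | rd q, sy x => cw ⟨_, hB q x⟩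
  | cw l, b => cw ⟨l.1.tail, by have := l.2; simp; omega⟩
  | p, _ => p

def l1 : S1 Q S B → Lt Q S → Lt Q S
  | rd _, d => b
  | cw l, d => l.1.head?.elim d fun _ => b
  | s, hd (some _) => b
  | rd q, sy x => hd (δ q x).1
  | cw l, b => l.1.head?.elim b sy
  | _, x => x

def l2 (i : ℕ) : Lt Q S → Lt Q S
  | c => c
  | d => if i = n + 2 then d else b
  | _ => if i = 0 then hd (some q0) else if i ≤ n then sy a else if i = n + 1 then sy e else b

def dd : S1 Q S B ⊕ Fin (n + 3) → Lt Q S → S1 Q S B ⊕ Fin (n + 3)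
  | .inl p, x => .inl (d1 δ hB p x)
  | .inr _, c => .inr 0
  | .inr _, d => .inl z
  | .inr i, _ => .inr ⟨min (i + 1) (n + 2), by omega⟩

def ll : S1 Q S B ⊕ Fin (n + 3) → Lt Q S → Lt Q S
  | .inl p, x => l1 δ p x
  | .inr i, x => l2 q0 a e n i x

def cf (k : ℕ) (o : Option Q × List S) (m : ℕ) : List (Lt Q S) :=
  replicate k b ++ hd o.1 :: (o.2.map sy ++ replicate m b)

variable {δ hB q0 a e n}

theorem z_out (u : List (Lt Q S)) : run (dd δ hB n) (.inl z) u = .inl z ∧
    out (dd δ hB n) (ll δ q0 a e n) (.inl z) u = u := by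
  induction u with
  | nil => exact ⟨rfl, rfl⟩
  | cons x u ih => simpa [run, out, dd, ll, d1, l1] using ih

theorem dd_d (p : S1 Q S B ⊕ Fin (n + 3)) : dd δ hB n p d = .inl z := by
  rcases p with (_ | _ | _ | _) | _ <;> rfl

theorem nod {u : List (Lt Q S)} (h : d ∉ u) (p : S1 Q S B ⊕ Fin (n + 3)) :
    d ∉ out (dd δ hB n) (ll δ q0 a e n) p u ∧ (p ≠ .inl z → run (dd δ hB n) p u ≠ .inl z) := by
  induction u generalizing p with
  | nil => simp [out, run]
  | cons x u ih =>
    rw [mem_cons, not_or] at h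
    have := ih h.2 (dd δ hB n p x)
    refine ⟨by_contra fun h1 => ?_, fun h1 => this.2 ?_⟩
    · have h1 : d = ll δ q0 a e n p x := by simpa [out, this.1] using h1
      rcases p with (_ | _ | _ | ⟨_ | _, _⟩) | _ <;> rcases x with _ | _ | _ | (_ | _) | _ <;>
        simp [ll, l1, l2] at h h1 <;> split_ifs at h1
    · rcases p with (_ | _ | _ | _) | _ <;> rcases x with _ | _ | _ | (_ | _) | _ <;>
        simp [dd, d1] at h h1 ⊢

theorem t_cw (t : List S) (m : ℕ) (l : List S) (h : l.length ≤ B) :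
    run (dd δ hB n) (.inl (cw ⟨l, h⟩)) (t.map sy ++ replicate m b) =
      .inl (cw ⟨l.drop m, by simp; omega⟩) ∧ (l.length ≤ m →
    out (dd δ hB n) (ll δ q0 a e n) (.inl (cw ⟨l, h⟩)) (t.map sy ++ replicate m b) =
      (t ++ l).map sy ++ replicate (m - l.length) b) := by
  induction t with
  | cons x t ih => simpa [run, out, dd, ll, d1, l1] using ih
  | nil =>
    induction m generalizing l with
    | zero => cases l <;> simp [run, out]
    | succ m ih =>
      cases l with
      | nil => simpa [run, out, dd, ll, d1, l1, replicate_succ] using ih [] h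
      | cons x l =>
        simpa [run, out, dd, ll, d1, l1, replicate_succ] using ih l (by simp at h; omega)

theorem t_s (k : ℕ) (u : List (Lt Q S)) :
    run (dd δ hB n) (.inl s) (replicate k b ++ u) = run (dd δ hB n) (.inl s) u ∧
    out (dd δ hB n) (ll δ q0 a e n) (.inl s) (replicate k b ++ u) =
      replicate k b ++ out (dd δ hB n) (ll δ q0 a e n) (.inl s) u := by
  induction k with
  | zero => exact ⟨rfl, rfl⟩
  | succ k ih => simpa [run, out, dd, ll, d1, l1, replicate_succ] using ih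

theorem t_step (k m : ℕ) (q : Q) (x : S) (t : List S) :
    ll δ q0 a e n (run (dd δ hB n) (.inl s) (cf k (some q, x :: t) m)) d =
      (if (δ q x).2.length ≤ m then d else b) ∧ ((δ q x).2.length ≤ m →
    out (dd δ hB n) (ll δ q0 a e n) (.inl s) (cf k (some q, x :: t) m) =
      cf (k + 1) ((δ q x).1, t ++ (δ q x).2) (m - (δ q x).2.length)) := by
  obtain ⟨h1, h2⟩ := t_cw (hB := hB) (q0 := q0) (a := a) (e := e) (n := n) t m _ (hB q x)
  unfold cf
  rw [(t_s (q0 := q0) (a := a) (e := e) k _).1, (t_s k _).2]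
  refine ⟨?_, fun h => by simp [out, dd, ll, d1, l1, h2 h, replicate_succ']⟩
  simp only [run, map_cons, cons_append, foldl_cons, dd, d1] at h1 ⊢
  rw [h1]
  split_ifs with h
  · simp [ll, l1, drop_eq_nil_of_le h]
  · simp [ll, l1, getElem?_eq_getElem (not_le.1 h)]

theorem t_halt (k m : ℕ) :
    ll δ q0 a e n (run (dd δ hB n) (.inl s) (cf k (none, []) m)) d = d ∧
    out (dd δ hB n) (ll δ q0 a e n) (.inl s) (cf k (none, []) m) = cf k (none, []) m := by
  obtain ⟨h1, h2⟩ := t_cw (hB := hB) (q0 := q0) (a := a) (e := e) (n := n) [] m [] (Nat.zero_le _)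
  unfold cf
  rw [(t_s (q0 := q0) (a := a) (e := e) k _).1, (t_s k _).2]
  refine ⟨?_, by simpa [out, dd, ll, d1, l1] using h2⟩
  simp only [run, foldl_cons, dd, d1] at h1 ⊢
  rw [h1]
  simp [ll, l1]

theorem t_two {u : List (Lt Q S)} (h1 : c ∉ u) (h2 : d ∉ u) (i : ℕ) :
    run (dd δ hB n) (.inr ⟨min i (n + 2), by omega⟩) u =
      .inr ⟨min (i + u.length) (n + 2), by omega⟩ ∧
    out (dd δ hB n) (ll δ q0 a e n) (.inr ⟨min i (n + 2), by omega⟩) u =
      (range' i u.length).map fun j => l2 q0 a e n j b := by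
  induction u generalizing i with
  | nil => exact ⟨rfl, rfl⟩
  | cons x u ih =>
    rw [mem_cons, not_or] at h1 h2
    have e1 : dd δ hB n (.inr ⟨min i (n + 2), by omega⟩) x = .inr ⟨min (i + 1) (n + 2), by omega⟩ := by
      cases x <;> simp [dd] at h1 h2 ⊢ <;> omega
    have e2 : l2 q0 a e n (min i (n + 2)) x = l2 q0 a e n i b := by
      cases x <;> simp only [l2, not_true, false_and] at h1 h2 ⊢ <;> split_ifs <;>
        first | rfl | omega
    obtain ⟨h3, h4⟩ := ih h1.2 h2.2 (i + 1)
    refine ⟨?_, by simp only [out, e1, h4, ll, e2, length_cons, range'_succ, map_cons]⟩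
    rw [run, foldl_cons, e1]
    simpa only [run, length_cons, Nat.add_assoc, Nat.add_comm 1] using h3

theorem ini (m : ℕ) : ((range' 0 (n + 2 + m)).map fun j => l2 q0 a e n j b) =
    cf 0 (some q0, replicate n a ++ [e]) m := by
  have k : ∀ i j (x : Lt Q S), (∀ y, i ≤ y → y < i + j → l2 q0 a e n y b = x) →
      ((range' i j).map fun j => l2 q0 a e n j b) = replicate j x := fun i j x h =>
    eq_replicate_iff.2 ⟨by simp, by
      simp only [forall_mem_map, mem_range'_1]
      exact fun y hy => h y hy.1 hy.2⟩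
  rw [show n + 2 + m = 1 + (n + (1 + m)) by omega, ← range'_append_1, ← range'_append_1,
    ← range'_append_1, map_append, map_append, map_append, k _ n (sy a), k _ m b]
  · simp [cf, l2, Nat.add_comm 1]
  all_goals
    intro y h1 h2
    simp only [l2]
    split_ifs <;> first | rfl | omega

theorem last_c (v : List (Lt Q S)) : ∃ x w, v = x ++ w ∧ c ∉ w ∧ (x = [] ∨ ∃ x', x = x' ++ [c]) := by
  induction v using reverseRecOn with
  | nil => exact ⟨[], [], rfl, by simp, Or.inl rfl⟩
  | append_singleton v y ih =>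
    by_cases h : c = y
    · exact ⟨v ++ [y], [], by simp, by simp, Or.inr ⟨v, h ▸ rfl⟩⟩
    · obtain ⟨x, w, rfl, h1, h2⟩ := ih
      exact ⟨x, w ++ [y], by simp, by simp [h, h1], h2⟩

theorem cf_len (k m : ℕ) (o : Option Q × List S) : (cf k o m).length = k + 1 + o.2.length + m := by
  simp [cf]
  omega

theorem main (hg : ∀ o, Reach δ (some q0, replicate n a ++ [e]) o →
      (∃ q x t, o = (some q, x :: t)) ∨ o = (none, [])) :
    WeaklyReset (dd δ hB n) (ll δ q0 a e n) ↔ Reach δ (some q0, replicate n a ++ [e]) (none, []) := by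
  classical
  have E : ∀ p x w y, out (dd δ hB n) (ll δ q0 a e n) p (x ++ (w ++ d :: y)) =
      out (dd δ hB n) (ll δ q0 a e n) p x ++ (out (dd δ hB n) (ll δ q0 a e n)
        (run (dd δ hB n) p x) w ++ ll δ q0 a e n (run (dd δ hB n) (run (dd δ hB n) p x) w) d :: y) := by
    intro p x w y
    rw [out_append, out_append, out, dd_d, (z_out y).2]
  constructor
  · rintro ⟨-, H, ⟨u, hu⟩, h1, -, h2⟩
    by_contra hn
    induction h : u.count d using Nat.strong_induction_on generalizing u with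
    | _ N ih =>
    by_cases h3 : d ∈ u
    swap
    · obtain ⟨p, hp⟩ := h1 hu
      exact (nod (q0 := q0) (a := a) (e := e) h3 (.inl s)).2 (by simp)
        (((hp ▸ Set.mem_range_self _ : _ ∈ ({p} : Set _)).trans
        (hp ▸ Set.mem_range_self _ : _ ∈ ({p} : Set _)).symm).trans
          (z_out (q0 := q0) (a := a) (e := e) u).1)
    obtain ⟨v, y, rfl, h4⟩ := eq_append_cons_of_mem h3
    obtain ⟨x, w, rfl, h5, h6⟩ := last_c v
    rw [mem_append, not_or] at h4
    have fin : ∀ v, d ∉ v → v ++ b :: y ∉ H := fun v hv h7 =>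
      ih _ (by simp [← h, count_eq_zero.2, hv, h4.1, h4.2]) _ h7 rfl
    have A : ∀ p x w, (p = .inl s ∨ p = .inr 0) → d ∉ x → (x = [] ∨ ∃ x', x = x' ++ [c]) →
        x ++ (w ++ d :: y) ∈ H → ∃ x', d ∉ x' ∧ (x' = [] ∨ ∃ x'', x' = x'' ++ [c]) ∧
        x' ++ (out (dd δ hB n) (ll δ q0 a e n) p w ++ ll δ q0 a e n (run (dd δ hB n) p w) d :: y) ∈ H := by
      intro p x w hp hx hc h7
      have h8 := h2 p _ h7
      rw [E] at h8
      refine ⟨_, (nod hx p).1, ?_, (show run (dd δ hB n) p x = p from ?_) ▸ h8⟩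
      · rcases hc with rfl | ⟨x, rfl⟩
        · exact Or.inl rfl
        · refine Or.inr ⟨out (dd δ hB n) (ll δ q0 a e n) p x, ?_⟩
          rw [out_append]
          rcases run (dd δ hB n) p x with (_ | _ | _ | _) | _ <;> rfl
      · rcases hc with rfl | ⟨x, rfl⟩
        · rfl
        · have k := (nod (δ := δ) (hB := hB) (q0 := q0) (a := a) (e := e)
            (show d ∉ x by simp at hx; exact hx) p).2 (by rcases hp with rfl | rfl <;> simp)
          have k2 : ∀ x : List (Lt Q S), d ∉ x → ∀ p, (run (dd δ hB n) p x).isLeft = p.isLeft := by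
            intro x hx
            induction x with
            | nil => exact fun _ => rfl
            | cons t x ih =>
              rw [mem_cons, not_or] at hx
              intro p
              refine (ih hx.2 _).trans ?_
              cases p <;> cases t <;> simp [dd] at hx ⊢
          have k3 := k2 x (by simp at hx; exact hx) p
          rw [run_append]
          generalize run (dd δ hB n) p x = r at *
          rcases hp with rfl | rfl <;> rcases r with (_ | _ | _ | _) | _ <;> simp [run, dd, d1] at *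
    have C : ∀ j k m o, j + k = w.length → Reach δ (some q0, replicate n a ++ [e]) o →
        (cf k o m).length = w.length → ∀ x, d ∉ x → (x = [] ∨ ∃ x', x = x' ++ [c]) →
        x ++ (cf k o m ++ d :: y) ∉ H := fun j => by
      induction j with
      | zero =>
        intro k m o h7 _ h8
        rw [cf_len] at h8
        omega
      | succ j ih =>
        intro k m o h7 h8 h9 x a1 a2 a3
        obtain ⟨q, t, r, rfl⟩ := (hg o h8).resolve_right fun h => hn (h ▸ h8)
        obtain ⟨x', a4, a5, a6⟩ := A _ _ _ (Or.inl rfl) a1 a2 a3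
        obtain ⟨a7, a8⟩ := t_step (hB := hB) (q0 := q0) (a := a) (e := e) (n := n) k m q t r
        rw [a7] at a6
        split_ifs at a6 with a9
        · rw [a8 a9] at a6
          refine ih _ _ _ (by omega) (h8.tail rfl) ?_ _ a4 a5 a6
          simp only [cf_len, length_append, length_cons] at h9 ⊢
          omega
        · exact fin (x' ++ _) (by simp [a4, (nod (show d ∉ cf k (some q, t :: r) m by simp [cf]) _).1])
            (append_assoc _ _ _ ▸ a6)
    obtain ⟨x', a4, a5, a6⟩ := A _ _ _ (Or.inr rfl) h4.1 h6 (append_assoc _ _ _ ▸ hu)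
    obtain ⟨a7, a8⟩ := t_two (δ := δ) (hB := hB) (q0 := q0) (a := a) (e := e) (n := n) h5 h4.2 0
    simp only [Nat.zero_min, Fin.zero_eta] at a7 a8
    rw [a7] at a6
    simp only [ll, l2] at a6
    split_ifs at a6 with a9
    · obtain ⟨m, hm⟩ : ∃ m, w.length = n + 2 + m := ⟨w.length - (n + 2), by omega⟩
      rw [a8, hm, ini] at a6
      exact C _ 0 m _ rfl .refl (by simp [cf_len]; omega) _ a4 a5 a6
    · exact fin (x' ++ _) (by simp [a4, (nod h4.2 _).1]) (append_assoc _ _ _ ▸ a6)
  · intro h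
    let T : List (Lt Q S) → Prop := fun w => ∃ Z : Set (List (Lt Q S)), w ∈ Z ∧ ∀ w ∈ Z,
      c ∉ w ∧ d ∉ w ∧ ll δ q0 a e n (run (dd δ hB n) (.inl s) w) d = d ∧
        out (dd δ hB n) (ll δ q0 a e n) (.inl s) w ∈ Z
    obtain ⟨m, hm⟩ : ∃ m, ∀ k, T (cf k (some q0, replicate n a ++ [e]) m) := by
      generalize (some q0, replicate n a ++ [e]) = o at h
      induction h using ReflTransGen.head_induction_on with
      | refl =>
        refine ⟨0, fun k => ⟨{cf k (none, []) 0}, rfl, ?_⟩⟩
        rintro _ rfl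
        exact ⟨by simp [cf], by simp [cf], t_halt k 0⟩
      | @head o o' h1 _ ih =>
        obtain ⟨m, ih⟩ := ih
        rcases o with ⟨_ | q, _ | ⟨x, t⟩⟩ <;> cases h1
        refine ⟨m + (δ q x).2.length, fun k => ?_⟩
        obtain ⟨Z, h1, h2⟩ := ih (k + 1)
        obtain ⟨h3, h4⟩ := t_step (hB := hB) (q0 := q0) (a := a) (e := e) (n := n) k
          (m + (δ q x).2.length) q x t
        refine ⟨insert _ Z, Or.inl rfl, ?_⟩
        rintro w (rfl | hw)
        · exact ⟨by simp [cf], by simp [cf], by simpa using h3, Or.inr (by simpa [h4] using h1)⟩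
        · exact ⟨(h2 w hw).1, (h2 w hw).2.1, (h2 w hw).2.2.1, Or.inr (h2 w hw).2.2.2⟩
    obtain ⟨Z, h1, h2⟩ := hm 0
    have sy : ∀ x y, x ++ d :: y ∈ Syn (dd δ hB n) := fun x y => ⟨.inl z, by
      simp only [run_append]
      simp only [run, foldl_cons, dd_d]
      exact (congrArg _ (funext fun _ => (z_out (q0 := q0) (a := a) (e := e) y).1)).trans
        Set.range_const⟩
    have ln : ∀ u p, (out (dd δ hB n) (ll δ q0 a e n) p u).length = u.length := fun u => by
      induction u with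
      | nil => exact fun _ => rfl
      | cons x u ih => exact fun _ => congrArg (· + 1) (ih _)
    refine ⟨⟨_, sy [] []⟩, {u | ∃ x y, ∃ w ∈ Z, w.length = n + 2 + m ∧ u = x ++ [c] ++ (w ++ d :: y)},
      ⟨_, [], [], _, h1, by simp [cf_len]; omega, rfl⟩, ?_, ?_, ?_⟩
    · rintro _ ⟨x, y, w, -, -, rfl⟩
      exact append_assoc _ _ _ ▸ sy _ _
    · rintro x' _ y' ⟨x, y, w, h3, h4, rfl⟩
      exact ⟨x' ++ x, y ++ y', w, h3, h4, by simp⟩
    · rintro p _ ⟨x, y, w, h3, h4, rfl⟩
      obtain ⟨h5, h6, h7, h8⟩ := h2 w h3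
      obtain ⟨a7, a8⟩ := t_two (δ := δ) (hB := hB) (q0 := q0) (a := a) (e := e) (n := n) h5 h6 0
      simp only [Nat.zero_min, Fin.zero_eta] at a7 a8
      rw [E, out_append, run_append]
      refine ⟨out (dd δ hB n) (ll δ q0 a e n) p x, y, ?_⟩
      rcases run (dd δ hB n) p x with (_ | _ | _ | _) | _
      · exact ⟨w, h3, h4, by simp [run, out, dd, d1, ll, l1, z_out,
          show foldl _ _ _ = _ from (z_out (q0 := q0) (a := a) (e := e) w).1]⟩
      iterate 3 exact ⟨_, h8, (ln _ _).trans h4, congrArg (fun t => _ ++ (_ ++ t :: y)) h7⟩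
      · refine ⟨_, h1, by simp [cf_len]; omega, ?_⟩
        change _ ++ [c] ++ (out (dd δ hB n) _ (.inr 0) w ++
          ll δ q0 a e n (run (dd δ hB n) (.inr 0) w) d :: y) = _
        rw [h4, ini] at a8
        rw [a7, a8]
        simp [ll, l2, h4]

end Pool.Agent.H.MP_5b5905_lc
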